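import Pool.Agent.OID.MAIN
import Pool.Agent.OID.TLOC
import Pool.Agent.OID.TBOOL
import Pool.Agent.OID.DIV
import Pool.Agent.OID.TLNP
import Pool.Agent.OID.TDVD
import Pool.Agent.OID.GCD
import Pool.Agent.OID.TPOL
import Pool.Agent.OID.TOPS
import Pool.Agent.OID.TTERM
import Pool.Agent.OID.WIN
import Pool.Agent.OID.LIN
import Pool.Agent.OID.SEG
import Pool.Agent.OID.NF
import Pool.Agent.OID.CNT
import Pool.Agent.OID.DEN
import Pool.Agent.OID.POS
import Pool.Agent.OID.GRO
import Pool.Agent.OID.BIG
import Pool.Agent.OID.XPHP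
import Pool.Agent.OID.PHP
import Pool.Agent.OID.IVT
import Pool.Agent.OID.RL
import Pool.Agent.OID.AD
import Pool.Agent.OID.NAG
import Pool.Agent.OID.RAT
import Pool.Agent.OID.CONV
import Pool.Agent.OID.CHP
import Pool.Agent.OID.CHART
import Pool.Agent.OID.I0
import Pool.Agent.OID.F0
import Pool.Agent.OID.TR
import Pool.Agent.OID.UNI
import Pool.Agent.OID.RES
import Pool.Agent.OID.MUFD
import Pool.Agent.OID.MPID
import Pool.Agent.OID.MINT
import Pool.Agent.OIE.AD1
import Pool.Agent.OIE.AD2
import Pool.Agent.OIE.EQN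
import Pool.Agent.OIF.ALG3
import Pool.Agent.OIF.BASE3
import Pool.Agent.OIF.CLO3
import Pool.Agent.OIF.CPA
import Pool.Agent.OIF.CPB
import Pool.Agent.OIF.CPC
import Pool.Agent.OIF.EFC
import Pool.Agent.OIF.EGC
import Pool.Agent.OIF.EIC
import Pool.Agent.OIF.F3
import Pool.Agent.OIF.G3
import Pool.Agent.OIF.I3
import Pool.Agent.OIF.LAM
import Pool.Agent.OIF.LCOP
import Pool.Agent.OIF.LDEG
import Pool.Agent.OIF.LN
import Pool.Agent.OIF.LNM
import Pool.Agent.OIF.LRES
import Pool.Agent.OIF.MAIN3
import Pool.Agent.OIF.PHI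
import Pool.Agent.OIF.PR
import Pool.Agent.OIF.PRM
import Pool.Agent.OIF.RAD
import Pool.Agent.OIF.RING3
import Pool.Agent.OIF.STA
import Pool.Agent.OIF.STB
import Pool.Agent.OIF.STC
import Pool.Agent.OIF.STD
import Pool.Agent.OIF.STG
import Pool.Agent.OIF.STI
import Pool.Agent.OIF.STO
import Pool.Agent.OIF.TD
import Pool.Agent.OIF.TI
import Pool.Agent.OIF.UDV

/-!
# Open induction with divisibility, the pigeonhole principle, all true universal sentences about divisibility, and a largest prime

There is a discretely ordered commutative ring `M` (a principal ideal domain, embeddable into every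
`ℤ_[p]`) whose nonnegative part is a model of Robinson's `Q`, in which induction holds for all
quantifier-free formulas with parameters in the language with `+`, `-`, `×`, `≤`, divisibility, gcd,
exact quotient, `⌊x / n⌋` and definition by cases, in which the pigeonhole principle holds for all
functions given by terms of this language, which satisfies all universal sentences in the language of rings
with divisibility and greatest common divisors that hold in `ℤ`, and which has a nonstandard largest prime.
The definitions are in `Pool/Agent/OID/Defs.lean` and `Pool/Agent/OIF/Defs.lean`.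
-/

namespace Pool.Agent.Results.MP_8727e9_lc.UniversalPigeonholePID

open OIF

theorem result : OIF.MainStatement := by
  have tb := OID.t_TBOOL
  have tl := OID.t_TLOC
  have dv := OID.t_DIV
  have gc := OID.t_GCD dv
  have td := OID.t_TDVD tb
  have tp := OID.t_TPOL tl tb td gc
  have tq := OID.t_TOPS tl tb td gc tp
  have tt := OID.t_TTERM tb (OID.t_TLNP dv) tq
  have wi := OID.t_WIN
  have sg := OID.t_SEG tb dv gc
  have nf := OID.t_NF sg dv gc
  have cn := OID.t_CNT tl tb dv gc OID.t_LIN sg
  have de := OID.t_DEN tb dv gc sg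
  have po := OID.t_POS tl tb dv gc sg nf de
  have gr := OID.t_GRO dv gc wi
  have bi := OID.t_BIG tl tb td gc sg nf de po gr
  have ph := OID.t_PHP tt (OID.t_XPHP tl tb cn sg po bi)
  have iv := OID.t_IVT
  have rl := OID.t_RL
  have ad := OID.t_AD
  have ra := OID.t_RAT
  have co := OID.t_CONV ra
  have ch := OID.t_CHART OID.t_NAG OID.t_CHP
  have tr := OID.t_TR
  have un := OID.t_UNI tr
  have mu := OID.t_MUFD ra co
  have mp := OID.t_MPID ra co OID.t_RES mu
  have mi := OID.t_MINT ra co OID.t_RES
  have ad2 := OIE.t_AD2 OIE.t_AD1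
  have prm := t_PRM t_PR
  have lam := t_LAM t_CPB
  have ti := t_TI t_CPA prm lam
  have eic := t_EIC co OID.t_I0 t_CPA t_CPC t_PR t_RAD ti t_TD
  have lcop := t_LCOP t_CPA prm lam
  have ln := t_LN t_LDEG t_LRES lcop (t_LNM t_LDEG)
  have std := t_STD t_CPA t_CPB prm t_STO t_STG
  have phi := t_PHI ln t_STA t_STB t_STI t_STC std
  have efc := t_EFC0 co t_CPA t_CPB t_CPC t_PR phi
  have egc := t_EGC t_CPA t_PR
  have base3 := t_BASE3 ad ra co egc
  have g3 := t_G3 rl ad ra co egc
  have i3 := t_I3 iv rl ad2 ra co ch OID.t_I0 eic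
  have f3 := t_F3 rl ad ra co ch OID.t_F0 efc
  have clo3 := t_CLO3 co base3 g3 i3 f3 tr un
  have ring3 := t_RING3 ra co clo3 mu mp mi (OIE.t_EQN ra)
  exact t_MAIN3 tt ph t_UDV (t_ALG3 iv ring3)

end Pool.Agent.Results.MP_8727e9_lc.UniversalPigeonholePID
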